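import Pool.Agent.H10.BL.Stmts

/-!
# BL, row TTL: triples with two small radicals
-/

set_option autoImplicit false

namespace Pool.BL

open Finset Pool.Agent.H98.ABCR Pool.SHA

namespace H31T

theorem coord_pos {v : ℕ × ℕ} (hv : IsTri v) (s : Fin 3) : 0 < coord v s := by
  obtain ⟨ha, hb, -⟩ := hv
  fin_cases s
  · exact ha
  · exact hb
  · exact Nat.add_pos_left ha _

theorem coord_le (v : ℕ × ℕ) (s : Fin 3) : coord v s ≤ v.1 + v.2 := by
  fin_cases s
  · exact Nat.le_add_right _ _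
  · exact Nat.le_add_left _ _
  · exact le_rfl

theorem inj2 {j k : Fin 3} (hjk : j ≠ k) (v w : ℕ × ℕ) (h1 : coord v j = coord w j)
    (h2 : coord v k = coord w k) : v = w := by
  have c0 : ∀ u : ℕ × ℕ, coord u 0 = u.1 := fun _ => rfl
  have c1 : ∀ u : ℕ × ℕ, coord u 1 = u.2 := fun _ => rfl
  have c2 : ∀ u : ℕ × ℕ, coord u 2 = u.1 + u.2 := fun _ => rfl
  have hc : ∀ s : Fin 3, s = 0 ∨ s = 1 ∨ s = 2 := by decide
  rcases hc j with rfl | rfl | rfl <;> rcases hc k with rfl | rfl | rfl <;>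
    first
      | exact absurd rfl hjk
      | (simp only [c0, c1, c2] at h1 h2
         exact Prod.ext (by omega) (by omega))

end H31T

open H31T

theorem ttl_thm (hCNT : Pool.RIC.S_CNT) : S_TTL := by
  classical
  intro κ ε hκ hε
  obtain ⟨C, hC, hT⟩ := hCNT κ (ε / 2) (by linarith) (by linarith)
  refine ⟨C * C, one_le_mul_of_one_le_of_one_le hC hC, ?_⟩
  intro X y z F j k hX hy hz hjk hF
  have hX0 : (0 : ℝ) < X := by linarith
  have key : ∀ (u : ℝ) (s : Fin 3), 0 ≤ u → (∀ v ∈ F, (rad (coord v s) : ℝ) ≤ X ^ u) →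
      (((F.image (fun v => coord v s)).card : ℕ) : ℝ) ≤ C * X ^ (ε / 2) * X ^ u := by
    intro u s hu hr
    refine hT X (X ^ u) _ hX (Real.one_le_rpow hX hu) ?_
    intro n hn
    obtain ⟨v, hv, rfl⟩ := Finset.mem_image.mp hn
    obtain ⟨T, H, -⟩ := hF v hv
    refine ⟨coord_pos T s, ?_, hr v hv⟩
    have h1 : (0 : ℝ) < ((v.1 + v.2 : ℕ) : ℝ) := by
      have := T.1
      exact_mod_cast Nat.add_pos_left this _
    have h2 : ((v.1 + v.2 : ℕ) : ℝ) ≤ X ^ κ := by
      rw [← Real.exp_log h1, Real.rpow_def_of_pos hX0, mul_comm]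
      exact Real.exp_le_exp.2 H
    have h3 : (coord v s : ℝ) ≤ ((v.1 + v.2 : ℕ) : ℝ) := by exact_mod_cast coord_le v s
    linarith
  have hA := key y j hy (fun v hv => (hF v hv).2.2.1)
  have hB := key z k hz (fun v hv => (hF v hv).2.2.2)
  have hcard : F.card ≤ ((F.image (fun v => coord v j)) ×ˢ (F.image (fun v => coord v k))).card := by
    refine Finset.card_le_card_of_injOn (fun v => (coord v j, coord v k)) ?_ ?_
    · intro v hv
      rw [Finset.mem_coe] at hv ⊢
      exact Finset.mem_product.2 ⟨Finset.mem_image_of_mem _ hv, Finset.mem_image_of_mem _ hv⟩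
    · intro v _ w _ h
      simp only [Prod.mk.injEq] at h
      exact inj2 hjk v w h.1 h.2
  rw [Finset.card_product] at hcard
  have hcard' : (F.card : ℝ) ≤ ((F.image (fun v => coord v j)).card : ℝ) *
      ((F.image (fun v => coord v k)).card : ℝ) := by exact_mod_cast hcard
  have hXe : (0 : ℝ) < X ^ (ε / 2) := Real.rpow_pos_of_pos hX0 _
  have hXy : (0 : ℝ) < X ^ y := Real.rpow_pos_of_pos hX0 _
  refine hcard'.trans ((mul_le_mul hA hB (Nat.cast_nonneg _) (by positivity)).trans (le_of_eq ?_))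
  have e1 : X ^ (ε + y + z) = X ^ (ε / 2) * X ^ (ε / 2) * X ^ y * X ^ z := by
    rw [← Real.rpow_add hX0, ← Real.rpow_add hX0, ← Real.rpow_add hX0]
    congr 1
    ring
  rw [e1]
  ring

end Pool.BL
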